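import Mathlib

/-!
# Boolean matrices, Green's relations and union-closed families
-/

namespace Pool.Agent.Y78.BM

open Finset

/-- `n × m` Boolean matrices. -/
abbrev BMat (n m : ℕ) := Fin n → Fin m → Bool

/-- The Boolean matrix product. -/
def bmul {a b c : ℕ} (X : BMat a b) (A : BMat b c) : BMat a c :=
  fun i j => decide (∃ k, X i k = true ∧ A k j = true)

/-- Green's relation `L` on `n × m` Boolean matrices. -/
def LRel {n m : ℕ} (A C : BMat n m) : Prop :=
  (∃ X : BMat n n, A = bmul X C) ∧ ∃ Y : BMat n n, C = bmul Y A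

/-- Green's relation `R` on `n × m` Boolean matrices. -/
def RRel {n m : ℕ} (A C : BMat n m) : Prop :=
  (∃ U : BMat m m, A = bmul C U) ∧ ∃ V : BMat m m, C = bmul A V

/-- Green's relation `D`. -/
def DRel {n m : ℕ} (A C : BMat n m) : Prop := ∃ E, LRel A E ∧ RRel E C

/-- The number `d(n,m)` of `D`-classes of the `n × m` Boolean matrices. -/
noncomputable def numD (n m : ℕ) : ℕ :=
  (Set.range fun A : BMat n m => {C : BMat n m | DRel A C}).ncard

/-- The families of subsets of `Fin n` that contain the empty set and are closed under unions. -/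
def UC (n : ℕ) : Set (Set (Finset (Fin n))) :=
  {F | ∅ ∈ F ∧ ∀ S ∈ F, ∀ T ∈ F, S ∪ T ∈ F}

/-- The number of union-closed families on `Fin n` that contain the empty set. -/
noncomputable def numUC (n : ℕ) : ℕ := (UC n).ncard

/-- The `j`-th column, as a set of rows. -/
def col {n m : ℕ} (A : BMat n m) (j : Fin m) : Finset (Fin n) :=
  univ.filter fun i => A i j = true

/-- The column space. -/
def colSpace {n m : ℕ} (A : BMat n m) : Set (Finset (Fin n)) :=
  Set.range fun J : Finset (Fin m) => J.biUnion (col A)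

/-- The action of a square Boolean matrix on sets of rows. -/
def act {n : ℕ} (X : BMat n n) (S : Finset (Fin n)) : Finset (Fin n) :=
  univ.filter fun i => ∃ k ∈ S, X i k = true

theorem mem_act {n : ℕ} (X : BMat n n) (S : Finset (Fin n)) (i : Fin n) :
    i ∈ act X S ↔ ∃ k ∈ S, X i k = true := by
  simp [act]

theorem mem_col {n m : ℕ} (A : BMat n m) (j : Fin m) (i : Fin n) :
    i ∈ col A j ↔ A i j = true := by
  simp [col]

theorem col_ext {n m : ℕ} {A B : BMat n m} (h : ∀ j, col A j = col B j) : A = B := by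
  funext i j
  have h1 : i ∈ col A j ↔ i ∈ col B j := by rw [h j]
  rw [mem_col, mem_col] at h1
  exact Bool.eq_iff_iff.2 h1

theorem col_bmul {n m : ℕ} (X : BMat n n) (A : BMat n m) (j : Fin m) :
    col (bmul X A) j = act X (col A j) := by
  ext i
  rw [mem_col, mem_act]
  simp only [bmul, decide_eq_true_eq]
  constructor
  · rintro ⟨k, h1, h2⟩
    exact ⟨k, (mem_col A j k).2 h2, h1⟩
  · rintro ⟨k, h1, h2⟩
    exact ⟨k, h2, (mem_col A j k).1 h1⟩

theorem act_biUnion {n m : ℕ} (X : BMat n n) (J : Finset (Fin m))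
    (f : Fin m → Finset (Fin n)) :
    act X (J.biUnion f) = J.biUnion fun j => act X (f j) := by
  ext i
  simp only [mem_act, Finset.mem_biUnion]
  constructor
  · rintro ⟨k, ⟨j, hj, hk⟩, h⟩
    exact ⟨j, hj, k, hk, h⟩
  · rintro ⟨j, hj, k, hk, h⟩
    exact ⟨k, ⟨j, hj, hk⟩, h⟩

theorem col_mem {n m : ℕ} (A : BMat n m) (j : Fin m) : col A j ∈ colSpace A :=
  ⟨{j}, by simp⟩

theorem colSpace_mem {n m : ℕ} (A : BMat n m) : colSpace A ∈ UC n := by
  refine ⟨⟨∅, by simp⟩, ?_⟩
  rintro _ ⟨J, rfl⟩ _ ⟨K, rfl⟩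
  refine ⟨J ∪ K, ?_⟩
  simp only
  rw [Finset.union_biUnion]

theorem colSpace_bmul {n m : ℕ} (X : BMat n n) (A : BMat n m) :
    colSpace (bmul X A) = act X '' colSpace A := by
  have h : ∀ J : Finset (Fin m), J.biUnion (col (bmul X A)) = act X (J.biUnion (col A)) := by
    intro J
    rw [act_biUnion]
    apply Finset.biUnion_congr rfl
    intro j _
    exact col_bmul X A j
  ext S
  constructor
  · rintro ⟨J, rfl⟩
    exact ⟨J.biUnion (col A), ⟨J, rfl⟩, (h J).symm⟩
  · rintro ⟨_, ⟨J, rfl⟩, rfl⟩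
    exact ⟨J, h J⟩

theorem exists_mul_iff {n m : ℕ} (A C : BMat n m) :
    (∃ U : BMat m m, A = bmul C U) ↔ colSpace A ⊆ colSpace C := by
  constructor
  · rintro ⟨U, rfl⟩
    rintro _ ⟨J, rfl⟩
    refine ⟨J.biUnion fun j => univ.filter fun k => U k j = true, ?_⟩
    simp only
    ext i
    simp only [Finset.mem_biUnion, mem_col, bmul, decide_eq_true_eq, Finset.mem_filter,
      Finset.mem_univ, true_and]
    constructor
    · rintro ⟨k, ⟨j, hj, hk⟩, h⟩
      exact ⟨j, hj, k, h, hk⟩
    · rintro ⟨j, hj, k, h, hk⟩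
      exact ⟨k, ⟨j, hj, hk⟩, h⟩
  · intro h
    have h1 : ∀ j : Fin m, ∃ J : Finset (Fin m), J.biUnion (col C) = col A j := by
      intro j
      exact h (col_mem A j)
    choose J hJ using h1
    refine ⟨fun k j => decide (k ∈ J j), ?_⟩
    apply col_ext
    intro j
    rw [← hJ j]
    ext i
    simp only [Finset.mem_biUnion, mem_col, bmul, decide_eq_true_eq]
    constructor
    · rintro ⟨k, hk, h⟩
      exact ⟨k, h, hk⟩
    · rintro ⟨k, h, hk⟩
      exact ⟨k, hk, h⟩

theorem RRel_iff {n m : ℕ} (A C : BMat n m) : RRel A C ↔ colSpace A = colSpace C := by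
  unfold RRel
  rw [exists_mul_iff, exists_mul_iff]
  exact ⟨fun h => Set.Subset.antisymm h.1 h.2, fun h => ⟨h.le, h.ge⟩⟩

/-- The relation between families that corresponds to `D`. -/
def FRel {n : ℕ} (F G : Set (Finset (Fin n))) : Prop :=
  ∃ X Y : BMat n n, act X '' F = G ∧ ∀ S ∈ F, act Y (act X S) = S

theorem DRel_iff {n m : ℕ} (A C : BMat n m) : DRel A C ↔ FRel (colSpace A) (colSpace C) := by
  constructor
  · rintro ⟨E, ⟨⟨Y, hY⟩, X, hX⟩, hR⟩
    refine ⟨X, Y, ?_, ?_⟩
    · rw [← colSpace_bmul, ← hX]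
      exact (RRel_iff E C).1 hR
    · rintro _ ⟨J, rfl⟩
      simp only
      rw [act_biUnion, act_biUnion]
      apply Finset.biUnion_congr rfl
      intro j _
      rw [← col_bmul, ← col_bmul, ← hX, ← hY]
  · rintro ⟨X, Y, h1, h2⟩
    refine ⟨bmul X A, ⟨⟨Y, ?_⟩, X, rfl⟩, ?_⟩
    · apply col_ext
      intro j
      rw [col_bmul, col_bmul, h2 _ (col_mem A j)]
    · rw [RRel_iff, colSpace_bmul]
      exact h1

theorem FRel_refl {n : ℕ} (F : Set (Finset (Fin n))) : FRel F F := by
  have h : ∀ S : Finset (Fin n), act (fun i j => decide (i = j)) S = S := by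
    intro S
    ext i
    rw [mem_act]
    simp
  refine ⟨fun i j => decide (i = j), fun i j => decide (i = j), ?_, ?_⟩
  · have h' : act (fun i j : Fin n => decide (i = j)) = id := by
      funext S
      exact h S
    rw [h', Set.image_id]
  · intro S _
    rw [h, h]

/-- The class of a family. -/
def cls {n : ℕ} (F : Set (Finset (Fin n))) : Set (Set (Finset (Fin n))) :=
  {G | G ∈ UC n ∧ FRel F G}

theorem colSpace_surj {n m : ℕ} (h : 2 ^ n ≤ m) {F : Set (Finset (Fin n))} (hF : F ∈ UC n) :
    ∃ A : BMat n m, colSpace A = F := by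
  classical
  have hcard : Fintype.card F ≤ Fintype.card (Fin m) := by
    calc Fintype.card F ≤ Fintype.card (Finset (Fin n)) := set_fintype_card_le_univ F
      _ = 2 ^ n := by simp
      _ ≤ m := h
      _ = Fintype.card (Fin m) := by simp
  obtain ⟨f⟩ := Function.Embedding.nonempty_of_card_le hcard
  have : Nonempty F := ⟨⟨∅, hF.1⟩⟩
  have hs : Function.Surjective (Function.invFun f) := Function.invFun_surjective f.injective
  set g : Fin m → Finset (Fin n) := fun j => (Function.invFun f j : F).1 with hg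
  refine ⟨fun i j => decide (i ∈ g j), ?_⟩
  have hcol : ∀ j, col (fun i j => decide (i ∈ g j)) j = g j := by
    intro j
    ext i
    rw [mem_col]
    simp
  ext S
  constructor
  · rintro ⟨J, rfl⟩
    simp only
    induction J using Finset.induction_on with
    | empty => simpa using hF.1
    | insert a s ha ih =>
      rw [Finset.biUnion_insert, hcol]
      exact hF.2 _ (Function.invFun f a : F).2 _ ih
  · intro hS
    obtain ⟨j, hj⟩ := hs ⟨S, hS⟩
    have : g j = S := by rw [hg]; simp only; rw [hj]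
    rw [← this, ← hcol j]
    exact col_mem _ j

theorem numD_eq {n m : ℕ} (h : 2 ^ n ≤ m) : numD n m = (cls '' UC n).ncard := by
  have h1 : (Set.range fun A : BMat n m => {C : BMat n m | DRel A C}) =
      (fun P : Set (Set (Finset (Fin n))) => (colSpace (n := n) (m := m)) ⁻¹' P) ''
        (cls '' UC n) := by
    ext Q
    constructor
    · rintro ⟨A, rfl⟩
      refine ⟨cls (colSpace A), ⟨colSpace A, colSpace_mem A, rfl⟩, ?_⟩
      ext C
      simp only [Set.mem_preimage, cls, Set.mem_setOf_eq]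
      rw [DRel_iff]
      exact ⟨fun h => h.2, fun h => ⟨colSpace_mem C, h⟩⟩
    · rintro ⟨P, ⟨F, hF, rfl⟩, rfl⟩
      obtain ⟨A, rfl⟩ := colSpace_surj h hF
      refine ⟨A, ?_⟩
      ext C
      simp only [Set.mem_preimage, cls, Set.mem_setOf_eq]
      rw [DRel_iff]
      exact ⟨fun h => ⟨colSpace_mem C, h⟩, fun h => h.2⟩
  rw [numD, h1]
  apply Set.ncard_image_of_injOn
  rintro _ ⟨F, hF, rfl⟩ _ ⟨F', hF', rfl⟩ hEq
  ext G
  simp only at hEq
  constructor
  · intro hG
    obtain ⟨A, rfl⟩ := colSpace_surj h hG.1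
    have : A ∈ (colSpace (n := n) (m := m)) ⁻¹' cls F := hG
    rw [hEq] at this
    exact this
  · intro hG
    obtain ⟨A, rfl⟩ := colSpace_surj h hG.1
    have : A ∈ (colSpace (n := n) (m := m)) ⁻¹' cls F' := hG
    rw [← hEq] at this
    exact this

theorem numD_le {n m : ℕ} (h : 2 ^ n ≤ m) : numD n m ≤ numUC n := by
  rw [numD_eq h]
  exact Set.ncard_image_le (Set.toFinite _)

/-- A family is reduced if no coordinate is a join of other coordinates on it. -/
def Red {n : ℕ} (F : Set (Finset (Fin n))) : Prop :=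
  ∀ i : Fin n, ∀ K : Finset (Fin n), i ∉ K → ¬ ∀ S ∈ F, (i ∈ S ↔ ∃ k ∈ K, k ∈ S)

theorem red_class {n : ℕ} {F G : Set (Finset (Fin n))} (hF : Red F) (h : FRel F G) :
    ∃ π : Equiv.Perm (Fin n), (fun S : Finset (Fin n) => S.image π) '' F = G := by
  obtain ⟨X, Y, rfl, hY⟩ := h
  have h1 : ∀ i : Fin n, ∃ k : Fin n, ∀ S ∈ F, (k ∈ act X S ↔ i ∈ S) := by
    intro i
    by_contra hcon
    push Not at hcon
    have h2 : ∃ k, Y i k = true ∧ X k i = true := by
      by_contra h3
      push Not at h3
      apply hF i (univ.filter fun l => ∃ k, Y i k = true ∧ X k l = true)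
      · simp only [Finset.mem_filter, Finset.mem_univ, true_and, not_exists, not_and]
        exact h3
      · intro S hS
        have h4 : i ∈ act Y (act X S) ↔ i ∈ S := by rw [hY S hS]
        rw [← h4, mem_act]
        constructor
        · rintro ⟨k, hk, hk2⟩
          obtain ⟨l, hl, hl2⟩ := (mem_act X S k).1 hk
          exact ⟨l, by simpa using ⟨k, hk2, hl2⟩, hl⟩
        · rintro ⟨l, hl, hl2⟩
          simp only [Finset.mem_filter, Finset.mem_univ, true_and] at hl
          obtain ⟨k, hk, hk2⟩ := hl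
          exact ⟨k, (mem_act X S k).2 ⟨l, hl2, hk2⟩, hk⟩
    obtain ⟨k, hk1, hk2⟩ := h2
    obtain ⟨S, hS, h5⟩ := hcon k
    have h6 : k ∈ act X S ↔ i ∈ S := by
      constructor
      · intro h
        have h7 : i ∈ act Y (act X S) := (mem_act _ _ _).2 ⟨k, h, hk1⟩
        rwa [hY S hS] at h7
      · intro h
        exact (mem_act _ _ _).2 ⟨i, h, hk2⟩
    tauto
  choose k hk using h1
  have hinj : Function.Injective k := by
    intro i j hij
    by_contra hne
    apply hF i {j} (by simpa using hne)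
    intro S hS
    rw [← hk i S hS, hij, hk j S hS]
    simp
  have hbij : Function.Bijective k := Finite.injective_iff_bijective.1 hinj
  refine ⟨Equiv.ofBijective k hbij, ?_⟩
  apply Set.image_congr
  intro S hS
  ext a
  obtain ⟨i, rfl⟩ := hbij.2 a
  rw [hk i S hS]
  simp only [Finset.mem_image, Equiv.ofBijective_apply]
  constructor
  · rintro ⟨j, hj, hji⟩
    rwa [← hinj hji]
  · intro h
    exact ⟨i, h, rfl⟩

/-- The number of reduced union-closed families is at most `n!` times the number of classes. -/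
theorem card_red_le (n : ℕ) :
    ({F | F ∈ UC n ∧ Red F} : Set (Set (Finset (Fin n)))).ncard ≤
      n.factorial * (cls '' UC n).ncard := by
  classical
  set s : Finset (Set (Finset (Fin n))) :=
    (Set.toFinite {F : Set (Finset (Fin n)) | F ∈ UC n ∧ Red F}).toFinset with hs
  have h1 : ({F | F ∈ UC n ∧ Red F} : Set (Set (Finset (Fin n)))).ncard = s.card :=
    Set.ncard_eq_toFinset_card _ _
  have hmem : ∀ F, F ∈ s ↔ F ∈ UC n ∧ Red F := by
    intro F
    rw [hs, Set.Finite.mem_toFinset]
    rfl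
  have h2 : s.card ≤ n.factorial * (s.image cls).card := by
    apply Finset.card_le_mul_card_image
    intro c hc
    obtain ⟨F, hF, rfl⟩ := Finset.mem_image.1 hc
    have hF' := (hmem F).1 hF
    have hsub : (s.filter fun G => cls G = cls F) ⊆
        (Finset.univ : Finset (Equiv.Perm (Fin n))).image
          (fun π : Equiv.Perm (Fin n) => (fun S : Finset (Fin n) => S.image π) '' F) := by
      intro G hG
      obtain ⟨hG1, hG2⟩ := Finset.mem_filter.1 hG
      have hG3 : G ∈ cls F := by
        rw [← hG2]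
        exact ⟨((hmem G).1 hG1).1, FRel_refl G⟩
      obtain ⟨π, hπ⟩ := red_class hF'.2 hG3.2
      exact Finset.mem_image.2 ⟨π, Finset.mem_univ _, hπ⟩
    calc (s.filter fun G => cls G = cls F).card
        ≤ ((Finset.univ : Finset (Equiv.Perm (Fin n))).image
          (fun π : Equiv.Perm (Fin n) =>
            (fun S : Finset (Fin n) => S.image π) '' F)).card := Finset.card_le_card hsub
      _ ≤ (Finset.univ : Finset (Equiv.Perm (Fin n))).card := Finset.card_image_le
      _ = n.factorial := by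
        rw [Finset.card_univ, Fintype.card_perm, Fintype.card_fin]
  rw [h1]
  refine h2.trans (Nat.mul_le_mul_left _ ?_)
  rw [← Set.ncard_coe_finset]
  apply Set.ncard_le_ncard _ (Set.toFinite _)
  intro c hc
  obtain ⟨F, hF, rfl⟩ := Finset.mem_image.1 (Finset.mem_coe.1 hc)
  exact ⟨F, ((hmem F).1 hF).1, rfl⟩

end Pool.Agent.Y78.BM
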