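import Mathlib
import Pool.Agent.Y78.BM.Core

/-!
# Counting reduced union-closed families
-/

namespace Pool.Agent.Y78.BM

open Finset

/-- The trace of a set on the complement of `i`. -/
def tr {n : ℕ} (i : Fin (n + 1)) (S : Finset (Fin (n + 1))) : Finset (Fin n) :=
  univ.filter fun a => i.succAbove a ∈ S

theorem mem_tr {n : ℕ} (i : Fin (n + 1)) (S : Finset (Fin (n + 1))) (a : Fin n) :
    a ∈ tr i S ↔ i.succAbove a ∈ S := by
  simp [tr]

theorem tr_union {n : ℕ} (i : Fin (n + 1)) (S T : Finset (Fin (n + 1))) :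
    tr i (S ∪ T) = tr i S ∪ tr i T := by
  ext a
  simp [mem_tr]

theorem tr_empty {n : ℕ} (i : Fin (n + 1)) : tr i ∅ = ∅ := by
  ext a
  simp [mem_tr]

/-- Two sets are equal if they agree at `i` and have the same trace. -/
theorem ext_tr {n : ℕ} (i : Fin (n + 1)) {S T : Finset (Fin (n + 1))}
    (h1 : i ∈ S ↔ i ∈ T) (h2 : tr i S = tr i T) : S = T := by
  ext b
  rcases Fin.eq_self_or_eq_succAbove i b with rfl | ⟨a, rfl⟩
  · exact h1
  · rw [← mem_tr, ← mem_tr, h2]

/-- Put the point `i` back. -/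
def lift {n : ℕ} (i : Fin (n + 1)) (b : Prop) [Decidable b] (T : Finset (Fin n)) :
    Finset (Fin (n + 1)) :=
  if b then insert i (T.image i.succAbove) else T.image i.succAbove

theorem tr_lift {n : ℕ} (i : Fin (n + 1)) (b : Prop) [Decidable b] (T : Finset (Fin n)) :
    tr i (lift i b T) = T := by
  ext a
  rw [mem_tr, lift]
  split_ifs
  · simp [Fin.succAbove_ne]
  · simp

theorem mem_lift {n : ℕ} (i : Fin (n + 1)) (b : Prop) [Decidable b] (T : Finset (Fin n)) :
    i ∈ lift i b T ↔ b := by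
  rw [lift]
  split_ifs with h
  · simp [h]
  · simp [h, Fin.succAbove_ne]

open Classical in
/-- Rebuild a non-reduced family from its trace. -/
noncomputable def rebuild {n : ℕ} (x : (Fin (n + 1) × Finset (Fin n)) × Set (Finset (Fin n))) :
    Set (Finset (Fin (n + 1))) :=
  (fun T => lift x.1.1 (∃ k ∈ x.1.2, k ∈ T) T) '' x.2

theorem nonred_sub (n : ℕ) :
    ({F | F ∈ UC (n + 1) ∧ ¬ Red F} : Set (Set (Finset (Fin (n + 1))))) ⊆
      rebuild '' ((Set.univ : Set (Fin (n + 1) × Finset (Fin n))) ×ˢ UC n) := by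
  rintro F ⟨hF, hR⟩
  unfold Red at hR
  push Not at hR
  obtain ⟨i, K, hiK, hK⟩ := hR
  refine ⟨((i, tr i K), tr i '' F), ⟨Set.mem_univ _, ?_, ?_⟩, ?_⟩
  · exact ⟨∅, hF.1, tr_empty i⟩
  · rintro _ ⟨S, hS, rfl⟩ _ ⟨T, hT, rfl⟩
    exact ⟨S ∪ T, hF.2 S hS T hT, tr_union i S T⟩
  · have key : ∀ S ∈ F, (∃ k ∈ tr i K, k ∈ tr i S) ↔ i ∈ S := by
      intro S hS
      rw [hK S hS]
      constructor
      · rintro ⟨k, h1, h2⟩
        exact ⟨i.succAbove k, (mem_tr _ _ _).1 h1, (mem_tr _ _ _).1 h2⟩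
      · rintro ⟨k, h1, h2⟩
        rcases Fin.eq_self_or_eq_succAbove i k with rfl | ⟨a, rfl⟩
        · exact absurd h1 hiK
        · exact ⟨a, (mem_tr _ _ _).2 h1, (mem_tr _ _ _).2 h2⟩
    have key2 : ∀ S ∈ F, ∀ inst : Decidable (∃ k ∈ tr i K, k ∈ tr i S),
        @lift n i (∃ k ∈ tr i K, k ∈ tr i S) inst (tr i S) = S := by
      intro S hS inst
      apply ext_tr i
      · rw [mem_lift, key S hS]
      · rw [tr_lift]
    unfold rebuild
    simp only [Set.image_image]
    ext S
    constructor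
    · rintro ⟨T, hT, rfl⟩
      exact Set.mem_of_eq_of_mem (key2 T hT _) hT
    · intro hS
      exact ⟨S, hS, key2 S hS _⟩

theorem nonred_le (n : ℕ) :
    ({F | F ∈ UC (n + 1) ∧ ¬ Red F} : Set (Set (Finset (Fin (n + 1))))).ncard ≤
      (n + 1) * 2 ^ n * numUC n := by
  calc ({F | F ∈ UC (n + 1) ∧ ¬ Red F} : Set (Set (Finset (Fin (n + 1))))).ncard
      ≤ (rebuild '' ((Set.univ : Set (Fin (n + 1) × Finset (Fin n))) ×ˢ UC n)).ncard :=
        Set.ncard_le_ncard (nonred_sub n) (Set.toFinite _)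
    _ ≤ ((Set.univ : Set (Fin (n + 1) × Finset (Fin n))) ×ˢ UC n).ncard :=
        Set.ncard_image_le (Set.toFinite _)
    _ = (n + 1) * 2 ^ n * numUC n := by
        rw [Set.ncard_prod, Set.ncard_univ, Nat.card_prod, numUC]
        simp

/-- The family built from a union-closed family and a set of middle-level sets. -/
def build {n : ℕ} (x : Set (Finset (Fin n)) × Finset (Finset (Fin n))) :
    Set (Finset (Fin (n + 1))) :=
  {S | (0 ∉ S ∧ tr 0 S ∈ x.1) ∨ (0 ∈ S ∧ (tr 0 S ∈ x.2 ∨ n / 2 < (tr 0 S).card))}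

theorem build_mem {n : ℕ} {F : Set (Finset (Fin n))} (hF : F ∈ UC n)
    {W : Finset (Finset (Fin n))} (hW : W ⊆ Finset.powersetCard (n / 2) univ) :
    build (F, W) ∈ UC (n + 1) := by
  have hup : ∀ T T' : Finset (Fin n), (T ∈ W ∨ n / 2 < T.card) → T ⊆ T' →
      (T' ∈ W ∨ n / 2 < T'.card) := by
    intro T T' hT hTT'
    rcases hT with hT | hT
    · have hc : T.card = n / 2 := (Finset.mem_powersetCard.1 (hW hT)).2
      by_cases h : T = T'
      · left; rwa [← h]
      · right
        rw [← hc]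
        exact Finset.card_lt_card (Finset.ssubset_iff_subset_ne.2 ⟨hTT', h⟩)
    · right
      exact lt_of_lt_of_le hT (Finset.card_le_card hTT')
  refine ⟨Or.inl ⟨by simp, ?_⟩, ?_⟩
  · simpa only [tr_empty] using hF.1
  · intro S hS T hT
    by_cases hT0 : (0 : Fin (n + 1)) ∈ T
    · right
      have hT' : tr 0 T ∈ W ∨ n / 2 < (tr 0 T).card := by
        rcases hT with ⟨h, _⟩ | ⟨_, h⟩
        · exact absurd hT0 h
        · exact h
      refine ⟨by simp [hT0], ?_⟩
      apply hup _ _ hT'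
      rw [tr_union]
      exact Finset.subset_union_right
    · by_cases hS0 : (0 : Fin (n + 1)) ∈ S
      · right
        have hS' : tr 0 S ∈ W ∨ n / 2 < (tr 0 S).card := by
          rcases hS with ⟨h, _⟩ | ⟨_, h⟩
          · exact absurd hS0 h
          · exact h
        refine ⟨by simp [hS0], ?_⟩
        apply hup _ _ hS'
        rw [tr_union]
        exact Finset.subset_union_left
      · left
        have hS' : tr 0 S ∈ F := by
          rcases hS with ⟨_, h⟩ | ⟨h, _⟩
          · exact h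
          · exact absurd h hS0
        have hT' : tr 0 T ∈ F := by
          rcases hT with ⟨_, h⟩ | ⟨h, _⟩
          · exact h
          · exact absurd h hT0
        refine ⟨by simp [hS0, hT0], ?_⟩
        rw [tr_union]
        exact hF.2 _ hS' _ hT'

theorem build_inj {n : ℕ} :
    Set.InjOn (build (n := n))
      (UC n ×ˢ (((Finset.powersetCard (n / 2) (univ : Finset (Fin n))).powerset :
        Finset (Finset (Finset (Fin n)))) : Set (Finset (Finset (Fin n))))) := by
  rintro ⟨F, W⟩ ⟨_, hW⟩ ⟨F', W'⟩ ⟨_, hW'⟩ hEq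
  simp only [Finset.coe_powerset, Set.mem_preimage, Set.mem_powerset_iff,
    Finset.coe_subset] at hW hW'
  have h1 : ∀ T : Finset (Fin n), T ∈ F ↔ T ∈ F' := by
    intro T
    have h := Set.ext_iff.1 hEq (lift 0 False T)
    simp only [build, Set.mem_setOf_eq, mem_lift, tr_lift] at h
    simpa using h
  have h2 : ∀ T : Finset (Fin n), T ∈ W ↔ T ∈ W' := by
    intro T
    by_cases hT : T.card = n / 2
    · have h := Set.ext_iff.1 hEq (lift 0 True T)
      simp only [build, Set.mem_setOf_eq, mem_lift, tr_lift] at h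
      simpa [hT] using h
    · constructor
      · intro h
        exact absurd (Finset.mem_powersetCard.1 (hW h)).2 hT
      · intro h
        exact absurd (Finset.mem_powersetCard.1 (hW' h)).2 hT
  exact Prod.ext (Set.ext h1) (Finset.ext h2)

theorem growth (n : ℕ) : numUC n * 2 ^ n.choose (n / 2) ≤ numUC (n + 1) := by
  have h1 : (build '' (UC n ×ˢ (((Finset.powersetCard (n / 2) (univ : Finset (Fin n))).powerset :
        Finset (Finset (Finset (Fin n)))) : Set (Finset (Finset (Fin n)))))).ncard ≤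
      (UC (n + 1)).ncard := by
    apply Set.ncard_le_ncard _ (Set.toFinite _)
    rintro _ ⟨⟨F, W⟩, ⟨hF, hW⟩, rfl⟩
    simp only [Finset.coe_powerset, Set.mem_preimage, Set.mem_powerset_iff,
      Finset.coe_subset] at hW
    exact build_mem hF hW
  rw [Set.ncard_image_of_injOn build_inj, Set.ncard_prod, Set.ncard_coe_finset,
    Finset.card_powerset, Finset.card_powersetCard, Finset.card_univ, Fintype.card_fin] at h1
  exact h1

theorem numUC_pos (n : ℕ) : 0 < numUC n := by
  apply (Set.ncard_pos (Set.toFinite _)).2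
  exact ⟨Set.univ, Set.mem_univ _, fun _ _ _ _ => Set.mem_univ _⟩

/-- The main lower bound for the number of classes. -/
theorem numUC_le (n m : ℕ) (h : 2 ^ (n + 1) ≤ m) :
    numUC (n + 1) ≤ (n + 1).factorial * numD (n + 1) m + (n + 1) * 2 ^ n * numUC n := by
  have h1 : UC (n + 1) = {F | F ∈ UC (n + 1) ∧ Red F} ∪ {F | F ∈ UC (n + 1) ∧ ¬ Red F} := by
    ext F
    simp only [Set.mem_union, Set.mem_setOf_eq]
    tauto
  have h2 : numUC (n + 1) ≤
      ({F | F ∈ UC (n + 1) ∧ Red F} : Set (Set (Finset (Fin (n + 1))))).ncard +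
      ({F | F ∈ UC (n + 1) ∧ ¬ Red F} : Set (Set (Finset (Fin (n + 1))))).ncard := by
    calc numUC (n + 1) = (UC (n + 1)).ncard := rfl
      _ = ({F | F ∈ UC (n + 1) ∧ Red F} ∪ {F | F ∈ UC (n + 1) ∧ ¬ Red F}).ncard := by
          rw [← h1]
      _ ≤ _ := Set.ncard_union_le _ _
  have h3 := card_red_le (n + 1)
  rw [← numD_eq h] at h3
  have h4 := nonred_le n
  omega

end Pool.Agent.Y78.BM
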