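import Mathlib
import Pool.Agent.Y78.BM.Count

/-!
# Few union-closed families have symmetries
-/

namespace Pool.Agent.Y78.BM

open Finset

/-- Image of a family under a permutation. -/
def pim {n : ℕ} (π : Equiv.Perm (Fin n)) (F : Set (Finset (Fin n))) : Set (Finset (Fin n)) :=
  (fun S : Finset (Fin n) => S.image π) '' F

/-- Invariance of a family under a permutation. -/
def Inv {n : ℕ} (σ : Equiv.Perm (Fin n)) (F : Set (Finset (Fin n))) : Prop :=
  ∀ S, S ∈ F ↔ S.image σ ∈ F

theorem image_image_inv {n : ℕ} (σ : Equiv.Perm (Fin n)) (S : Finset (Fin n)) :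
    (S.image (σ⁻¹ : Equiv.Perm (Fin n))).image σ = S := by
  ext a
  simp only [Finset.mem_image]
  constructor
  · rintro ⟨b, ⟨c, hc, rfl⟩, rfl⟩
    simpa using hc
  · intro h
    exact ⟨σ⁻¹ a, ⟨a, h, rfl⟩, by simp⟩

theorem image_inv_image {n : ℕ} (σ : Equiv.Perm (Fin n)) (S : Finset (Fin n)) :
    (S.image σ).image (σ⁻¹ : Equiv.Perm (Fin n)) = S := by
  ext a
  simp only [Finset.mem_image]
  constructor
  · rintro ⟨b, ⟨c, hc, rfl⟩, rfl⟩
    simpa using hc
  · intro h
    exact ⟨σ a, ⟨a, h, rfl⟩, by simp⟩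

/-- An invariant family is determined by the sets that avoid `i` or contain `σ i`. -/
theorem determined {n : ℕ} (σ : Equiv.Perm (Fin n)) (i : Fin n)
    {F F' : Set (Finset (Fin n))} (hF : Inv σ F) (hF' : Inv σ F')
    (h : ∀ S : Finset (Fin n), ¬ (i ∈ S ∧ σ i ∉ S) → (S ∈ F ↔ S ∈ F')) : F = F' := by
  ext S
  by_cases hS : i ∈ S ∧ σ i ∉ S
  · have h1 : i ∉ S.image (σ⁻¹ : Equiv.Perm (Fin n)) := by
      intro hi
      obtain ⟨a, ha, hai⟩ := Finset.mem_image.1 hi
      apply hS.2
      rw [← hai]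
      simpa using ha
    have h2 := h (S.image (σ⁻¹ : Equiv.Perm (Fin n))) (fun hh => h1 hh.1)
    rw [hF (S.image (σ⁻¹ : Equiv.Perm (Fin n))), hF' (S.image (σ⁻¹ : Equiv.Perm (Fin n))),
      image_image_inv] at h2
    exact h2
  · exact h S hS

/-- The members that contain both points. -/
def EE {n : ℕ} (i j : Fin n) (F : Set (Finset (Fin n))) : Set (Finset (Fin n)) :=
  {S | S ∈ F ∧ i ∈ S ∧ j ∈ S}

theorem exists_code {α : Type*} [Finite α] (s : ℕ) (E : Set α) (h : E.ncard ≤ s) :
    ∃ f : Fin s → Option α, ∀ u, u ∈ E ↔ ∃ k, f k = some u := by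
  classical
  have hfin : Finite E := Set.toFinite E
  have hcard : Nat.card E ≤ Nat.card (Fin s) := by
    rw [Nat.card_coe_set_eq, Nat.card_eq_fintype_card, Fintype.card_fin]
    exact h
  have := Fintype.ofFinite E
  rw [Nat.card_eq_fintype_card, Nat.card_eq_fintype_card] at hcard
  obtain ⟨g⟩ := Function.Embedding.nonempty_of_card_le hcard
  refine ⟨fun k => if h : ∃ e, g e = k then some h.choose.1 else none, ?_⟩
  intro u
  constructor
  · intro hu
    refine ⟨g ⟨u, hu⟩, ?_⟩
    have h1 : ∃ e, g e = g ⟨u, hu⟩ := ⟨_, rfl⟩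
    simp only [h1, dif_pos, Option.some.injEq]
    have h2 := h1.choose_spec
    have h3 := g.injective h2
    rw [h3]
  · rintro ⟨k, hk⟩
    by_cases h1 : ∃ e, g e = k
    · simp only [h1, dif_pos, Option.some.injEq] at hk
      rw [← hk]
      exact h1.choose.2
    · simp [h1] at hk

theorem small_le {n : ℕ} (σ : Equiv.Perm (Fin (n + 1))) (i : Fin (n + 1)) (s : ℕ) :
    ({F | F ∈ UC (n + 1) ∧ Inv σ F ∧ (EE i (σ i) F).ncard ≤ s} :
      Set (Set (Finset (Fin (n + 1))))).ncard ≤ numUC n * (2 ^ (n + 1) + 1) ^ s := by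
  classical
  have hcode : ∀ F : Set (Finset (Fin (n + 1))),
      ∃ f : Fin s → Option (Finset (Fin (n + 1))), (EE i (σ i) F).ncard ≤ s →
        ∀ u, u ∈ EE i (σ i) F ↔ ∃ k, f k = some u := by
    intro F
    by_cases h : (EE i (σ i) F).ncard ≤ s
    · obtain ⟨f, hf⟩ := exists_code s _ h
      exact ⟨f, fun _ => hf⟩
    · exact ⟨fun _ => none, fun h' => absurd h' h⟩
  choose c hc using hcode
  have h1 : ({F | F ∈ UC (n + 1) ∧ Inv σ F ∧ (EE i (σ i) F).ncard ≤ s} :
      Set (Set (Finset (Fin (n + 1))))).ncard ≤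
      (UC n ×ˢ (Set.univ : Set (Fin s → Option (Finset (Fin (n + 1)))))).ncard := by
    apply Set.ncard_le_ncard_of_injOn (fun F => (tr i '' {S | S ∈ F ∧ i ∉ S}, c F))
    · rintro F ⟨hF, _, _⟩
      refine ⟨⟨?_, ?_⟩, Set.mem_univ _⟩
      · exact ⟨∅, ⟨hF.1, by simp⟩, tr_empty i⟩
      · rintro _ ⟨S, ⟨hS, hiS⟩, rfl⟩ _ ⟨T, ⟨hT, hiT⟩, rfl⟩
        exact ⟨S ∪ T, ⟨hF.2 S hS T hT, by simp [hiS, hiT]⟩, tr_union i S T⟩
    · rintro F ⟨hF, hI, hs⟩ F' ⟨hF', hI', hs'⟩ hEq
      simp only [Prod.mk.injEq] at hEq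
      apply determined σ i hI hI'
      intro S hS
      have havoid : ∀ G : Set (Finset (Fin (n + 1))), i ∉ S →
          (S ∈ G ↔ tr i S ∈ tr i '' {S | S ∈ G ∧ i ∉ S}) := by
        intro G hi
        constructor
        · intro h
          exact ⟨S, ⟨h, hi⟩, rfl⟩
        · rintro ⟨T, ⟨hT, hiT⟩, hTS⟩
          have : T = S := ext_tr i (by simp [hi, hiT]) hTS
          rwa [← this]
      by_cases hi : i ∈ S
      · have hj : σ i ∈ S := by
          by_contra h
          exact hS ⟨hi, h⟩
        have e1 := hc F hs S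
        have e2 := hc F' hs' S
        rw [hEq.2, ← e2] at e1
        simp only [EE, Set.mem_setOf_eq, hi, hj, and_true] at e1
        exact e1
      · rw [havoid F hi, havoid F' hi, hEq.1]
  refine h1.trans ?_
  rw [Set.ncard_prod, Set.ncard_univ, numUC]
  simp

theorem exists_level {n t : ℕ} (E : Set (Finset (Fin (n + 1)))) (h : (n + 2) * t < E.ncard) :
    ∃ e : Fin t → Finset (Fin (n + 1)), Function.Injective e ∧
      (∀ k l, (e k).card = (e l).card) ∧ ∀ k, e k ∈ E := by
  classical
  set Ef := (Set.toFinite E).toFinset with hEf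
  have hc : E.ncard = Ef.card := Set.ncard_eq_toFinset_card E _
  have h1 : ∃ y ∈ Finset.range (n + 2), t < (Ef.filter fun x => x.card = y).card := by
    apply Finset.exists_lt_card_fiber_of_mul_lt_card_of_maps_to
    · intro a _
      rw [Finset.mem_range]
      have := Finset.card_le_univ a
      rw [Fintype.card_fin] at this
      omega
    · rw [Finset.card_range, ← hc]
      exact h
  obtain ⟨y, _, hy⟩ := h1
  have h2 : Fintype.card (Fin t) ≤ Fintype.card (Ef.filter fun x => x.card = y) := by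
    rw [Fintype.card_fin, Fintype.card_coe]
    exact hy.le
  obtain ⟨g⟩ := Function.Embedding.nonempty_of_card_le h2
  refine ⟨fun k => (g k).1, ?_, ?_, ?_⟩
  · intro k l hkl
    exact g.injective (Subtype.ext hkl)
  · intro k l
    have a := (Finset.mem_filter.1 (g k).2).2
    have b := (Finset.mem_filter.1 (g l).2).2
    simp only
    rw [a, b]
  · intro k
    have a := (Finset.mem_filter.1 (g k).2).1
    exact (Set.Finite.mem_toFinset _).1 a

theorem big_le {n : ℕ} (σ : Equiv.Perm (Fin (n + 1))) (i : Fin (n + 1)) (hi : σ i ≠ i) (t : ℕ) :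
    ({F | F ∈ UC (n + 1) ∧ Inv σ F ∧ (n + 2) * t < (EE i (σ i) F).ncard} :
      Set (Set (Finset (Fin (n + 1))))).ncard * 2 ^ t ≤ numUC (n + 1) := by
  classical
  have hlev : ∀ F : Set (Finset (Fin (n + 1))), ∃ e : Fin t → Finset (Fin (n + 1)),
      (n + 2) * t < (EE i (σ i) F).ncard → Function.Injective e ∧
        (∀ k l, (e k).card = (e l).card) ∧ ∀ k, e k ∈ EE i (σ i) F := by
    intro F
    by_cases h : (n + 2) * t < (EE i (σ i) F).ncard
    · obtain ⟨e, he⟩ := exists_level _ h
      exact ⟨e, fun _ => he⟩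
    · exact ⟨fun _ => ∅, fun h' => absurd h' h⟩
  choose e he using hlev
  have h1 : (({F | F ∈ UC (n + 1) ∧ Inv σ F ∧ (n + 2) * t < (EE i (σ i) F).ncard} :
      Set (Set (Finset (Fin (n + 1))))) ×ˢ (Set.univ : Set (Finset (Fin t)))).ncard ≤
      (UC (n + 1)).ncard := by
    apply Set.ncard_le_ncard_of_injOn (fun x =>
      {S | (S ∈ x.1 ∧ ¬ (i ∈ S ∧ σ i ∉ S)) ∨
        ((i ∈ S ∧ σ i ∉ S) ∧ insert (σ i) S ∈ x.1 ∧ ∃ k ∈ x.2, e x.1 k ⊆ insert (σ i) S)})
    · rintro ⟨F, V⟩ ⟨⟨hF, hI, hs⟩, _⟩
      refine ⟨Or.inl ⟨hF.1, by simp⟩, ?_⟩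
      intro S hS T hT
      simp only [Set.mem_setOf_eq] at hS hT ⊢
      rcases hS with ⟨hS, hS'⟩ | ⟨hS', hS, k, hk, hkS⟩
      · rcases hT with ⟨hT, hT'⟩ | ⟨hT', hT, l, hl, hlT⟩
        · left
          refine ⟨hF.2 _ hS _ hT, ?_⟩
          simp only [Finset.mem_union]
          tauto
        · by_cases hj : σ i ∈ S
          · left
            refine ⟨?_, ?_⟩
            · have h2 := hF.2 _ hS _ hT
              rw [Finset.union_insert, Finset.insert_eq_of_mem (by simp [hj])] at h2
              exact h2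
            · simp [hj]
          · right
            refine ⟨⟨by simp [hT'.1], by simp [hj, hT'.2]⟩, ?_, l, hl, ?_⟩
            · have h2 := hF.2 _ hS _ hT
              rwa [Finset.union_insert] at h2
            · refine hlT.trans (Finset.insert_subset_insert _ Finset.subset_union_right)
      · rcases hT with ⟨hT, hT'⟩ | ⟨hT', hT, l, hl, hlT⟩
        · by_cases hj : σ i ∈ T
          · left
            refine ⟨?_, ?_⟩
            · have h2 := hF.2 _ hS _ hT
              rw [Finset.insert_union, Finset.insert_eq_of_mem (by simp [hj])] at h2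
              exact h2
            · simp [hj]
          · right
            refine ⟨⟨by simp [hS'.1], by simp [hj, hS'.2]⟩, ?_, k, hk, ?_⟩
            · have h2 := hF.2 _ hS _ hT
              rwa [Finset.insert_union] at h2
            · refine hkS.trans (Finset.insert_subset_insert _ Finset.subset_union_left)
        · right
          refine ⟨⟨by simp [hS'.1], by simp [hT'.2, hS'.2]⟩, ?_, k, hk, ?_⟩
          · have h2 := hF.2 _ hS _ hT
            have h3 : insert (σ i) S ∪ insert (σ i) T = insert (σ i) (S ∪ T) := by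
              ext a
              simp only [Finset.mem_union, Finset.mem_insert]
              tauto
            rwa [h3] at h2
          · refine hkS.trans (Finset.insert_subset_insert _ Finset.subset_union_left)
    · rintro ⟨F, V⟩ ⟨⟨hF, hI, hs⟩, _⟩ ⟨F', V'⟩ ⟨⟨hF', hI', hs'⟩, _⟩ hEq
      simp only at hEq
      have hFF : F = F' := by
        apply determined σ i hI hI'
        intro S hS
        have h2 := Set.ext_iff.1 hEq S
        simp only [Set.mem_setOf_eq] at h2
        tauto
      subst hFF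
      obtain ⟨hinj, hcard, hmem⟩ := he F hs
      have hV : V = V' := by
        ext k
        have hk := hmem k
        have h3 : ∀ W : Finset (Fin t), k ∈ W ↔
            ((e F k).erase (σ i) ∈ F ∧ ¬ (i ∈ (e F k).erase (σ i) ∧
              σ i ∉ (e F k).erase (σ i))) ∨
            ((i ∈ (e F k).erase (σ i) ∧ σ i ∉ (e F k).erase (σ i)) ∧
              insert (σ i) ((e F k).erase (σ i)) ∈ F ∧
              ∃ l ∈ W, e F l ⊆ insert (σ i) ((e F k).erase (σ i))) := by
          intro W
          have hi2 : i ∈ (e F k).erase (σ i) := Finset.mem_erase.2 ⟨Ne.symm hi, hk.2.1⟩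
          have hj2 : σ i ∉ (e F k).erase (σ i) := Finset.notMem_erase _ _
          rw [Finset.insert_erase hk.2.2]
          constructor
          · intro hW
            exact Or.inr ⟨⟨hi2, hj2⟩, hk.1, k, hW, Finset.Subset.refl _⟩
          · rintro (⟨_, h4⟩ | ⟨_, _, l, hl, hsub⟩)
            · exact absurd ⟨hi2, hj2⟩ h4
            · have h5 : e F l = e F k := Finset.eq_of_subset_of_card_le hsub (hcard k l).le
              rwa [← hinj h5]
        have h2 := Set.ext_iff.1 hEq ((e F k).erase (σ i))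
        simp only [Set.mem_setOf_eq] at h2
        rw [h3 V, h3 V']
        exact h2
      rw [hV]
  rw [Set.ncard_prod, Set.ncard_univ] at h1
  simpa [numUC] using h1

end Pool.Agent.Y78.BM
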