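import Mathlib
import Pool.Agent.Y78.BM.Sym

/-!
# Counting classes of union-closed families
-/

namespace Pool.Agent.Y78.BM

open Finset

theorem pim_mem {n : ℕ} (π : Equiv.Perm (Fin n)) {F : Set (Finset (Fin n))} (hF : F ∈ UC n) :
    pim π F ∈ UC n := by
  refine ⟨⟨∅, hF.1, by simp⟩, ?_⟩
  rintro _ ⟨S, hS, rfl⟩ _ ⟨T, hT, rfl⟩
  exact ⟨S ∪ T, hF.2 S hS T hT, Finset.image_union _ _⟩

theorem mem_pim {n : ℕ} (π : Equiv.Perm (Fin n)) (F : Set (Finset (Fin n)))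
    (T : Finset (Fin n)) : T ∈ pim π F ↔ T.image (π⁻¹ : Equiv.Perm (Fin n)) ∈ F := by
  constructor
  · rintro ⟨S, hS, rfl⟩
    simp only
    rwa [image_inv_image]
  · intro h
    exact ⟨_, h, image_image_inv π T⟩

theorem pim_inv_pim {n : ℕ} (π : Equiv.Perm (Fin n)) (F : Set (Finset (Fin n))) :
    pim (π⁻¹ : Equiv.Perm (Fin n)) (pim π F) = F := by
  ext T
  rw [mem_pim, mem_pim]
  have : (T.image ((π⁻¹ : Equiv.Perm (Fin n))⁻¹ : Equiv.Perm (Fin n))).image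
      (π⁻¹ : Equiv.Perm (Fin n)) = T := by
    rw [inv_inv]
    exact image_inv_image π T
  rw [this]

theorem FRel_pim {n : ℕ} (π : Equiv.Perm (Fin n)) {F G : Set (Finset (Fin n))}
    (h : FRel F G) : FRel (pim π F) G := by
  obtain ⟨X, Y, rfl, hY⟩ := h
  have h1 : ∀ S : Finset (Fin n),
      act (fun a b => X a ((π⁻¹ : Equiv.Perm (Fin n)) b)) (S.image π) = act X S := by
    intro S
    ext a
    rw [mem_act, mem_act]
    constructor
    · rintro ⟨k, hk, h⟩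
      obtain ⟨b, hb, rfl⟩ := Finset.mem_image.1 hk
      exact ⟨b, hb, by simpa using h⟩
    · rintro ⟨b, hb, h⟩
      exact ⟨π b, Finset.mem_image_of_mem _ hb, by simpa using h⟩
  have h2 : ∀ T : Finset (Fin n),
      act (fun a b => Y ((π⁻¹ : Equiv.Perm (Fin n)) a) b) T = (act Y T).image π := by
    intro T
    ext a
    rw [mem_act, Finset.mem_image]
    constructor
    · rintro ⟨k, hk, h⟩
      exact ⟨(π⁻¹ : Equiv.Perm (Fin n)) a, (mem_act _ _ _).2 ⟨k, hk, h⟩, by simp⟩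
    · rintro ⟨b, hb, rfl⟩
      obtain ⟨k, hk, h⟩ := (mem_act _ _ _).1 hb
      exact ⟨k, hk, by simpa using h⟩
  refine ⟨fun a b => X a ((π⁻¹ : Equiv.Perm (Fin n)) b),
    fun a b => Y ((π⁻¹ : Equiv.Perm (Fin n)) a) b, ?_, ?_⟩
  · unfold pim
    rw [Set.image_image]
    simp only [h1]
  · rintro _ ⟨S, hS, rfl⟩
    simp only
    rw [h1, h2, hY S hS]

theorem cls_pim {n : ℕ} (π : Equiv.Perm (Fin n)) (F : Set (Finset (Fin n))) :
    cls (pim π F) = cls F := by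
  ext G
  constructor
  · rintro ⟨hG, h⟩
    refine ⟨hG, ?_⟩
    have h2 := FRel_pim (π⁻¹ : Equiv.Perm (Fin n)) h
    rwa [pim_inv_pim] at h2
  · rintro ⟨hG, h⟩
    exact ⟨hG, FRel_pim π h⟩

/-- A family is rigid if no nontrivial permutation preserves it. -/
def Rigid {n : ℕ} (F : Set (Finset (Fin n))) : Prop :=
  ∀ σ : Equiv.Perm (Fin n), σ ≠ 1 → ¬ Inv σ F

theorem rigid_classes (n : ℕ) :
    (cls '' ({F | F ∈ UC n ∧ Rigid F} : Set (Set (Finset (Fin n))))).ncard * n.factorial ≤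
      numUC n := by
  classical
  have hrep : ∀ c : Set (Set (Finset (Fin n))), ∃ F : Set (Finset (Fin n)),
      c ∈ cls '' ({F | F ∈ UC n ∧ Rigid F} : Set (Set (Finset (Fin n)))) →
        (F ∈ UC n ∧ Rigid F) ∧ cls F = c := by
    intro c
    by_cases h : c ∈ cls '' ({F | F ∈ UC n ∧ Rigid F} : Set (Set (Finset (Fin n))))
    · obtain ⟨F, hF, hc⟩ := h
      exact ⟨F, fun _ => ⟨hF, hc⟩⟩
    · exact ⟨∅, fun h' => absurd h' h⟩
  choose rep hrep using hrep
  have h1 : ((cls '' ({F | F ∈ UC n ∧ Rigid F} : Set (Set (Finset (Fin n))))) ×ˢ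
      (Set.univ : Set (Equiv.Perm (Fin n)))).ncard ≤ (UC n).ncard := by
    apply Set.ncard_le_ncard_of_injOn (fun x => pim x.2 (rep x.1))
    · rintro ⟨c, π⟩ ⟨hc, _⟩
      exact pim_mem π (hrep c hc).1.1
    · rintro ⟨c, π⟩ ⟨hc, _⟩ ⟨c', π'⟩ ⟨hc', _⟩ hEq
      simp only at hEq hc hc'
      have hcc : c = c' := by
        rw [← (hrep c hc).2, ← (hrep c' hc').2, ← cls_pim π (rep c), hEq, cls_pim]
      subst hcc
      have hinv : Inv (π'⁻¹ * π) (rep c) := by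
        intro S
        have e1 : S ∈ rep c ↔ S.image π ∈ pim π (rep c) := by
          rw [mem_pim, image_inv_image]
        rw [e1, hEq, mem_pim, Finset.image_image]
        rfl
      have hone : π'⁻¹ * π = 1 := by
        by_contra hne
        exact (hrep c hc).1.2 _ hne hinv
      have : π = π' := by
        rw [inv_mul_eq_one] at hone
        exact hone.symm
      rw [this]
  rw [Set.ncard_prod, Set.ncard_univ] at h1
  have h2 : Nat.card (Equiv.Perm (Fin n)) = n.factorial := by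
    rw [Nat.card_eq_fintype_card, Fintype.card_perm, Fintype.card_fin]
  rw [h2] at h1
  exact h1

theorem fix_le {n : ℕ} (σ : Equiv.Perm (Fin (n + 1))) (hσ : σ ≠ 1) (t : ℕ) :
    ({F | F ∈ UC (n + 1) ∧ Inv σ F} : Set (Set (Finset (Fin (n + 1))))).ncard ≤
      numUC n * (2 ^ (n + 1) + 1) ^ ((n + 2) * t) + numUC (n + 1) / 2 ^ t := by
  have hi : ∃ i, σ i ≠ i := by
    by_contra h
    push Not at h
    exact hσ (Equiv.ext h)
  obtain ⟨i, hi⟩ := hi
  have hsub : ({F | F ∈ UC (n + 1) ∧ Inv σ F} : Set (Set (Finset (Fin (n + 1))))) ⊆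
      {F | F ∈ UC (n + 1) ∧ Inv σ F ∧ (EE i (σ i) F).ncard ≤ (n + 2) * t} ∪
      {F | F ∈ UC (n + 1) ∧ Inv σ F ∧ (n + 2) * t < (EE i (σ i) F).ncard} := by
    rintro F ⟨h1, h2⟩
    rcases le_or_gt (EE i (σ i) F).ncard ((n + 2) * t) with h | h
    · exact Or.inl ⟨h1, h2, h⟩
    · exact Or.inr ⟨h1, h2, h⟩
  have h1 := Set.ncard_le_ncard hsub (Set.toFinite _)
  have h2 := Set.ncard_union_le
    ({F | F ∈ UC (n + 1) ∧ Inv σ F ∧ (EE i (σ i) F).ncard ≤ (n + 2) * t} :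
      Set (Set (Finset (Fin (n + 1)))))
    {F | F ∈ UC (n + 1) ∧ Inv σ F ∧ (n + 2) * t < (EE i (σ i) F).ncard}
  have h3 := small_le σ i ((n + 2) * t)
  have h4 := big_le σ i hi t
  have h5 := (Nat.le_div_iff_mul_le (by positivity : 0 < 2 ^ t)).2 h4
  omega

theorem nonrigid_le (n t : ℕ) :
    ({F | F ∈ UC (n + 1) ∧ ¬ Rigid F} : Set (Set (Finset (Fin (n + 1))))).ncard ≤
      (n + 1).factorial *
        (numUC n * (2 ^ (n + 1) + 1) ^ ((n + 2) * t) + numUC (n + 1) / 2 ^ t) := by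
  classical
  have hsub : ({F | F ∈ UC (n + 1) ∧ ¬ Rigid F} : Set (Set (Finset (Fin (n + 1))))) ⊆
      ⋃ σ ∈ (Finset.univ.filter fun σ : Equiv.Perm (Fin (n + 1)) => σ ≠ 1),
        {F | F ∈ UC (n + 1) ∧ Inv σ F} := by
    rintro F ⟨h1, h2⟩
    unfold Rigid at h2
    push Not at h2
    obtain ⟨σ, hσ, hI⟩ := h2
    simp only [Set.mem_iUnion]
    exact ⟨σ, by simpa using hσ, h1, hI⟩
  calc ({F | F ∈ UC (n + 1) ∧ ¬ Rigid F} : Set (Set (Finset (Fin (n + 1))))).ncard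
      ≤ (⋃ σ ∈ (Finset.univ.filter fun σ : Equiv.Perm (Fin (n + 1)) => σ ≠ 1),
        {F | F ∈ UC (n + 1) ∧ Inv σ F}).ncard := Set.ncard_le_ncard hsub (Set.toFinite _)
    _ ≤ ∑ σ ∈ (Finset.univ.filter fun σ : Equiv.Perm (Fin (n + 1)) => σ ≠ 1),
        ({F | F ∈ UC (n + 1) ∧ Inv σ F} : Set (Set (Finset (Fin (n + 1))))).ncard :=
        Finset.set_ncard_biUnion_le _ _
    _ ≤ ∑ σ ∈ (Finset.univ.filter fun σ : Equiv.Perm (Fin (n + 1)) => σ ≠ 1),
        (numUC n * (2 ^ (n + 1) + 1) ^ ((n + 2) * t) + numUC (n + 1) / 2 ^ t) := by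
        apply Finset.sum_le_sum
        intro σ hσ
        exact fix_le σ (by simpa using hσ) t
    _ = (Finset.univ.filter fun σ : Equiv.Perm (Fin (n + 1)) => σ ≠ 1).card *
        (numUC n * (2 ^ (n + 1) + 1) ^ ((n + 2) * t) + numUC (n + 1) / 2 ^ t) := by
        rw [Finset.sum_const, smul_eq_mul]
    _ ≤ (n + 1).factorial *
        (numUC n * (2 ^ (n + 1) + 1) ^ ((n + 2) * t) + numUC (n + 1) / 2 ^ t) := by
        apply Nat.mul_le_mul_right
        calc (Finset.univ.filter fun σ : Equiv.Perm (Fin (n + 1)) => σ ≠ 1).card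
            ≤ (Finset.univ : Finset (Equiv.Perm (Fin (n + 1)))).card :=
              Finset.card_filter_le _ _
          _ = (n + 1).factorial := by
              rw [Finset.card_univ, Fintype.card_perm, Fintype.card_fin]

/-- The main upper bound for the number of classes. -/
theorem numD_mul_le (n m t : ℕ) (h : 2 ^ (n + 1) ≤ m) :
    numD (n + 1) m * (n + 1).factorial ≤ numUC (n + 1) +
      (n + 1).factorial * ((n + 1).factorial *
        (numUC n * (2 ^ (n + 1) + 1) ^ ((n + 2) * t) + numUC (n + 1) / 2 ^ t)) := by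
  rw [numD_eq h]
  have h1 : cls '' UC (n + 1) ⊆
      cls '' ({F | F ∈ UC (n + 1) ∧ Rigid F} : Set (Set (Finset (Fin (n + 1))))) ∪
      cls '' ({F | F ∈ UC (n + 1) ∧ ¬ Rigid F} : Set (Set (Finset (Fin (n + 1))))) := by
    rintro _ ⟨F, hF, rfl⟩
    by_cases hR : Rigid F
    · exact Or.inl ⟨F, ⟨hF, hR⟩, rfl⟩
    · exact Or.inr ⟨F, ⟨hF, hR⟩, rfl⟩
  have h2 := Set.ncard_le_ncard h1 (Set.toFinite _)
  have h3 := Set.ncard_union_le
    (cls '' ({F | F ∈ UC (n + 1) ∧ Rigid F} : Set (Set (Finset (Fin (n + 1))))))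
    (cls '' ({F | F ∈ UC (n + 1) ∧ ¬ Rigid F} : Set (Set (Finset (Fin (n + 1))))))
  have h4 := rigid_classes (n + 1)
  have h5 : (cls '' ({F | F ∈ UC (n + 1) ∧ ¬ Rigid F} :
      Set (Set (Finset (Fin (n + 1)))))).ncard ≤ _ :=
    (Set.ncard_image_le (Set.toFinite _)).trans (nonrigid_le n t)
  set a := (cls '' ({F | F ∈ UC (n + 1) ∧ Rigid F} :
    Set (Set (Finset (Fin (n + 1)))))).ncard
  set b := (cls '' ({F | F ∈ UC (n + 1) ∧ ¬ Rigid F} :
    Set (Set (Finset (Fin (n + 1)))))).ncard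
  set B := (n + 1).factorial *
        (numUC n * (2 ^ (n + 1) + 1) ^ ((n + 2) * t) + numUC (n + 1) / 2 ^ t)
  calc (cls '' UC (n + 1)).ncard * (n + 1).factorial
      ≤ (a + b) * (n + 1).factorial := Nat.mul_le_mul_right _ (h2.trans h3)
    _ = a * (n + 1).factorial + (n + 1).factorial * b := by ring
    _ ≤ numUC (n + 1) + (n + 1).factorial * B :=
      Nat.add_le_add h4 (Nat.mul_le_mul_left _ h5)

end Pool.Agent.Y78.BM
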