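import Mathlib
import Pool.Agent.Y78.BM.Orbits

/-!
# Asymptotics of the number of `D`-classes
-/

namespace Pool.Agent.Y78.BM

open Finset

theorem six_pow (n : ℕ) (h : 61 ≤ n) : (n + 2) ^ 6 ≤ 2 ^ n := by
  induction n, h using Nat.le_induction with
  | base => norm_num
  | succ k hk ih =>
    have hx : 63 ≤ k + 2 := by omega
    generalize hxd : k + 2 = x at *
    have h5 : (k + 1 + 2) = x + 1 := by omega
    rw [h5, pow_succ 2 k]
    have p1 : x ≤ x ^ 5 := Nat.le_self_pow (by norm_num) x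
    have hx1 : 1 ≤ x := by omega
    have p0 : 1 ≤ x ^ 5 := Nat.one_le_pow _ _ hx1
    have p2 : x ^ 2 ≤ x ^ 5 := Nat.pow_le_pow_right hx1 (by norm_num)
    have p3 : x ^ 3 ≤ x ^ 5 := Nat.pow_le_pow_right hx1 (by norm_num)
    have p4 : x ^ 4 ≤ x ^ 5 := Nat.pow_le_pow_right hx1 (by norm_num)
    have e : (x + 1) ^ 6 = x ^ 6 + 6 * x ^ 5 + 15 * x ^ 4 + 20 * x ^ 3 + 15 * x ^ 2 + 6 * x + 1 := by
      ring
    have q : 63 * x ^ 5 ≤ x ^ 6 := by
      rw [pow_succ x 5, mul_comm (x ^ 5) x]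
      exact Nat.mul_le_mul_right _ hx
    rw [e]
    omega

theorem choose_big (n : ℕ) (h : 61 ≤ n) : (n + 2) ^ 5 ≤ n.choose (n / 2) := by
  have h1 : 2 ^ n ≤ (n + 1) * n.choose (n / 2) := by
    rw [← Nat.sum_range_choose n]
    calc ∑ m ∈ Finset.range (n + 1), n.choose m
        ≤ ∑ m ∈ Finset.range (n + 1), n.choose (n / 2) :=
          Finset.sum_le_sum fun m _ => Nat.choose_le_middle m n
      _ = (n + 1) * n.choose (n / 2) := by simp
  have h2 := six_pow n h
  by_contra hlt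
  push Not at hlt
  have h3 : (n + 1) * n.choose (n / 2) < (n + 2) * (n + 2) ^ 5 := by
    calc (n + 1) * n.choose (n / 2) ≤ (n + 1) * (n + 2) ^ 5 := Nat.mul_le_mul_left _ hlt.le
      _ < (n + 2) * (n + 2) ^ 5 := Nat.mul_lt_mul_of_pos_right (by omega) (by positivity)
  have h4 : (n + 2) * (n + 2) ^ 5 = (n + 2) ^ 6 := by ring
  omega

theorem factorial_le_two_pow (N : ℕ) : N.factorial ≤ 2 ^ (N * N) := by
  calc N.factorial ≤ N ^ N := Nat.factorial_le_pow N
    _ ≤ (2 ^ N) ^ N := Nat.pow_le_pow_left (Nat.lt_two_pow_self).le _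
    _ = 2 ^ (N * N) := by rw [← pow_mul]

/-- The upper estimate with an explicit error. -/
theorem upper_nat (n m : ℕ) (hn : 61 ≤ n) (h : 2 ^ (n + 1) ≤ m) :
    numD (n + 1) m * (n + 1).factorial * 2 ^ n ≤ numUC (n + 1) * (2 ^ n + 1) := by
  set t := 2 * (n + 1) * (n + 1) + n + 1 with ht
  have hC := choose_big n hn
  have hg := growth n
  have h1 := numD_mul_le n m t h
  set M := numUC (n + 1) with hM
  set M' := numUC n with hM'
  set C := n.choose (n / 2) with hCd
  -- exponents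
  have hexp : (n + 2) * ((n + 2) * t) + t ≤ C := by
    have : (n + 2) * ((n + 2) * t) + t ≤ (n + 2) ^ 5 := by
      rw [ht]
      have hx : 63 ≤ n + 2 := by omega
      obtain ⟨y, hy⟩ : ∃ y, n = y + 61 := ⟨n - 61, by omega⟩
      subst hy
      ring_nf
      nlinarith [Nat.zero_le y, Nat.zero_le (y ^ 2), Nat.zero_le (y ^ 3), Nat.zero_le (y ^ 4),
        Nat.zero_le (y ^ 5)]
    exact this.trans hC
  have hsmall : M' * (2 ^ (n + 1) + 1) ^ ((n + 2) * t) * 2 ^ t ≤ M := by
    calc M' * (2 ^ (n + 1) + 1) ^ ((n + 2) * t) * 2 ^ t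
        ≤ M' * (2 ^ (n + 2)) ^ ((n + 2) * t) * 2 ^ t := by
          apply Nat.mul_le_mul_right
          apply Nat.mul_le_mul_left
          apply Nat.pow_le_pow_left
          rw [pow_succ 2 (n + 1)]
          have : 1 ≤ 2 ^ (n + 1) := Nat.one_le_two_pow
          omega
      _ = M' * 2 ^ ((n + 2) * ((n + 2) * t) + t) := by
          rw [← pow_mul, mul_assoc, ← pow_add]
      _ ≤ M' * 2 ^ C := Nat.mul_le_mul_left _ (Nat.pow_le_pow_right (by norm_num) hexp)
      _ ≤ M := hg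
  set A := M' * (2 ^ (n + 1) + 1) ^ ((n + 2) * t) with hA
  have hdiv : M / 2 ^ t * 2 ^ t ≤ M := Nat.div_mul_le_self _ _
  have hB : (A + M / 2 ^ t) * 2 ^ t ≤ 2 * M := by
    rw [add_mul]
    omega
  have hfac : (n + 1).factorial * ((n + 1).factorial * (A + M / 2 ^ t)) * 2 ^ n ≤ M := by
    have hf := factorial_le_two_pow (n + 1)
    have e1 : 2 * (2 ^ ((n + 1) * (n + 1)) * 2 ^ ((n + 1) * (n + 1)) * 2 ^ n) = 2 ^ t := by
      rw [← pow_add, ← pow_add, ← pow_succ']
      congr 1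
      rw [ht]
      ring
    have e2 : 2 * ((n + 1).factorial * ((n + 1).factorial * (A + M / 2 ^ t)) * 2 ^ n) ≤
        2 * M := by
      calc 2 * ((n + 1).factorial * ((n + 1).factorial * (A + M / 2 ^ t)) * 2 ^ n)
          = 2 * ((n + 1).factorial * (n + 1).factorial * 2 ^ n) * (A + M / 2 ^ t) := by ring
        _ ≤ 2 * (2 ^ ((n + 1) * (n + 1)) * 2 ^ ((n + 1) * (n + 1)) * 2 ^ n) *
            (A + M / 2 ^ t) := by
            apply Nat.mul_le_mul_right
            apply Nat.mul_le_mul_left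
            apply Nat.mul_le_mul_right
            exact Nat.mul_le_mul hf hf
        _ = (A + M / 2 ^ t) * 2 ^ t := by rw [e1]; ring
        _ ≤ 2 * M := hB
    omega
  calc numD (n + 1) m * (n + 1).factorial * 2 ^ n
      ≤ (M + (n + 1).factorial * ((n + 1).factorial * (A + M / 2 ^ t))) * 2 ^ n :=
        Nat.mul_le_mul_right _ h1
    _ = M * 2 ^ n + (n + 1).factorial * ((n + 1).factorial * (A + M / 2 ^ t)) * 2 ^ n := by ring
    _ ≤ M * 2 ^ n + M := Nat.add_le_add_left hfac _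
    _ = M * (2 ^ n + 1) := by ring

/-- The lower estimate with an explicit error. -/
theorem lower_nat (n m : ℕ) (hn : 61 ≤ n) (h : 2 ^ (n + 1) ≤ m) :
    numUC (n + 1) * 2 ^ n ≤ numD (n + 1) m * (n + 1).factorial * 2 ^ n + numUC (n + 1) := by
  have hC := choose_big n hn
  have hg := growth n
  have h1 := numUC_le n m h
  have h2 : (n + 1) * 2 ^ n * numUC n * 2 ^ n ≤ numUC (n + 1) := by
    calc (n + 1) * 2 ^ n * numUC n * 2 ^ n
        ≤ 2 ^ (n + 1) * 2 ^ n * numUC n * 2 ^ n := by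
          apply Nat.mul_le_mul_right
          apply Nat.mul_le_mul_right
          apply Nat.mul_le_mul_right
          exact (Nat.lt_two_pow_self).le
      _ = numUC n * 2 ^ (n + 1 + n + n) := by
          rw [pow_add, pow_add]; ring
      _ ≤ numUC n * 2 ^ n.choose (n / 2) := by
          apply Nat.mul_le_mul_left
          apply Nat.pow_le_pow_right (by norm_num)
          refine le_trans ?_ hC
          calc n + 1 + n + n ≤ (n + 2) * (n + 2) := by nlinarith
            _ = (n + 2) ^ 2 := by ring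
            _ ≤ (n + 2) ^ 5 := Nat.pow_le_pow_right (by omega) (by norm_num)
      _ ≤ numUC (n + 1) := hg
  calc numUC (n + 1) * 2 ^ n
      ≤ ((n + 1).factorial * numD (n + 1) m + (n + 1) * 2 ^ n * numUC n) * 2 ^ n :=
        Nat.mul_le_mul_right _ h1
    _ = numD (n + 1) m * (n + 1).factorial * 2 ^ n + (n + 1) * 2 ^ n * numUC n * 2 ^ n := by
        ring
    _ ≤ numD (n + 1) m * (n + 1).factorial * 2 ^ n + numUC (n + 1) :=
        Nat.add_le_add_left h2 _

/-- The number of `D`-classes is the number of union-closed families divided by `n!`, up to a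
relative error at most `2 / 2 ^ n`. -/
theorem main_bound (n m : ℕ) (hn : 62 ≤ n) (h : 2 ^ n ≤ m) :
    |(numD n m : ℝ) * (n.factorial : ℝ) / (numUC n : ℝ) - 1| ≤ 2 / 2 ^ n := by
  obtain ⟨k, rfl⟩ : ∃ k, n = k + 1 := ⟨n - 1, by omega⟩
  have h1 := upper_nat k m (by omega) h
  have h2 := lower_nat k m (by omega) h
  have hpos : (0 : ℝ) < numUC (k + 1) := by exact_mod_cast numUC_pos (k + 1)
  have hp2 : (0 : ℝ) < 2 ^ k := by positivity
  have h1' : (numD (k + 1) m : ℝ) * ((k + 1).factorial : ℝ) * 2 ^ k ≤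
      (numUC (k + 1) : ℝ) * (2 ^ k + 1) := by exact_mod_cast h1
  have h2' : (numUC (k + 1) : ℝ) * 2 ^ k ≤
      (numD (k + 1) m : ℝ) * ((k + 1).factorial : ℝ) * 2 ^ k + numUC (k + 1) := by
    exact_mod_cast h2
  have e : (2 : ℝ) / 2 ^ (k + 1) = 1 / 2 ^ k := by
    rw [pow_succ]
    field_simp
  rw [e, abs_le]
  constructor
  · rw [neg_le_sub_iff_le_add, ← sub_le_iff_le_add, le_div_iff₀ hpos]
    have : (1 - 1 / 2 ^ k) * (numUC (k + 1) : ℝ) * 2 ^ k =
        (numUC (k + 1) : ℝ) * 2 ^ k - numUC (k + 1) := by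
      field_simp
    nlinarith
  · rw [sub_le_iff_le_add, div_le_iff₀ hpos]
    have : (1 / 2 ^ k + 1) * (numUC (k + 1) : ℝ) * 2 ^ k =
        (numUC (k + 1) : ℝ) * (2 ^ k + 1) := by
      field_simp
      ring
    nlinarith

theorem indep (n m : ℕ) (h : 2 ^ n ≤ m) : numD n m = numD n (2 ^ n) := by
  rw [numD_eq h, numD_eq le_rfl]

/-- The regime of the problem forces `2 ^ n ≤ m` eventually. -/
theorem regime {ν μ : ℕ → ℕ} (hμ : Filter.Tendsto μ Filter.atTop Filter.atTop)
    (h : Filter.Tendsto (fun k => (ν k : ℝ) / Real.log (μ k)) Filter.atTop (nhds 0)) :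
    ∀ᶠ k in Filter.atTop, 2 ^ ν k ≤ μ k := by
  have h1 : ∀ᶠ k in Filter.atTop, (ν k : ℝ) / Real.log (μ k) < 1 :=
    h.eventually (gt_mem_nhds (by norm_num))
  have h2 : ∀ᶠ k in Filter.atTop, 3 ≤ μ k := hμ.eventually_ge_atTop 3
  filter_upwards [h1, h2] with k hk1 hk2
  have hμ3 : (3 : ℝ) ≤ (μ k : ℝ) := by exact_mod_cast hk2
  have hlog : 0 < Real.log (μ k) := Real.log_pos (by linarith)
  rw [div_lt_one hlog] at hk1
  have h3 : (ν k : ℝ) * Real.log 2 ≤ Real.log (μ k) := by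
    have hl2 : Real.log 2 ≤ 1 := by
      have := Real.log_two_lt_d9
      linarith
    have : (ν k : ℝ) * Real.log 2 ≤ (ν k : ℝ) * 1 :=
      mul_le_mul_of_nonneg_left hl2 (Nat.cast_nonneg _)
    linarith
  have h4 : Real.log ((2 : ℝ) ^ ν k) ≤ Real.log (μ k) := by
    rw [Real.log_pow]
    exact h3
  have h5 : (2 : ℝ) ^ ν k ≤ (μ k : ℝ) :=
    (Real.log_le_log_iff (by positivity) (by linarith)).1 h4
  exact_mod_cast h5

theorem main_limit {ν μ : ℕ → ℕ} (hν : Filter.Tendsto ν Filter.atTop Filter.atTop)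
    (hμ : Filter.Tendsto μ Filter.atTop Filter.atTop)
    (h : Filter.Tendsto (fun k => (ν k : ℝ) / Real.log (μ k)) Filter.atTop (nhds 0)) :
    Filter.Tendsto (fun k => (numD (ν k) (μ k) : ℝ) /
      ((numUC (ν k) : ℝ) / ((ν k).factorial : ℝ))) Filter.atTop (nhds 1) := by
  have h0 : Filter.Tendsto (fun n : ℕ => (2 : ℝ) / 2 ^ n) Filter.atTop (nhds 0) := by
    have := tendsto_pow_atTop_nhds_zero_of_lt_one (r := (1 / 2 : ℝ)) (by norm_num) (by norm_num)
    have h2 := this.const_mul 2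
    rw [mul_zero] at h2
    refine h2.congr ?_
    intro n
    rw [one_div, inv_pow, div_eq_mul_inv]
  have h1 : Filter.Tendsto (fun k => (2 : ℝ) / 2 ^ ν k) Filter.atTop (nhds 0) := h0.comp hν
  rw [tendsto_iff_norm_sub_tendsto_zero]
  refine squeeze_zero' (Filter.Eventually.of_forall fun k => norm_nonneg _) ?_ h1
  filter_upwards [regime hμ h, hν.eventually_ge_atTop 62] with k hk1 hk2
  have h3 := main_bound (ν k) (μ k) hk2 hk1
  rw [Real.norm_eq_abs]
  have e : (numD (ν k) (μ k) : ℝ) / ((numUC (ν k) : ℝ) / ((ν k).factorial : ℝ)) =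
      (numD (ν k) (μ k) : ℝ) * ((ν k).factorial : ℝ) / (numUC (ν k) : ℝ) := by
    rw [div_div_eq_mul_div]
  rw [e]
  exact h3

/-- A lower bound for the number of union-closed families. -/
theorem numUC_lower (n : ℕ) :
    2 ^ (∑ j ∈ Finset.range n, j.choose (j / 2)) ≤ numUC n := by
  induction n with
  | zero =>
    rw [Finset.range_zero, Finset.sum_empty, pow_zero]
    exact numUC_pos 0
  | succ k ih =>
    rw [Finset.sum_range_succ, pow_add]
    exact (Nat.mul_le_mul_right _ ih).trans (growth k)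

end Pool.Agent.Y78.BM
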